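import Mathlib
import Pool.Agent.N614.QR.Defs
import Pool.Agent.N614.QR.Main

set_option autoImplicit false

/-!
# A non-generator whose rational cone contains all quasi-rational languages

There is a context-free language `L` over a finite alphabet such that every quasi-rational
(non-expansive) language is the image of `L` under a rational transduction, while some context-free
language is not. So the least principal rational cone containing `Qrt` is not the family of all
context-free languages.

The language `L` consists of the words of a bracketed grammar in which every token carries a unary
annotation, together with all words in which the annotation of some token is too long in comparison
with the annotation of the token before it. In a word without such an error the nesting depth is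
logarithmic in the length of the blocks, so the shortest paths of an automaton with `N` states
which read a word of `L` have length at most `N ^ O(log N)`. For the language of all full binary
trees automata with `O(n)` states force the length `2 ^ n`.
-/

namespace Pool.Agent.Results.MP_2d18ab_lc.NonGenerator

open Pool.Agent.N614.QR

/-- There is a context-free language `L` over a finite alphabet `X` whose principal rational cone
contains all quasi-rational languages but not all context-free languages. -/
theorem result : ∃ (X : Type) (_ : Finite X) (L : Language X), L.IsContextFree ∧
    (∀ (Y : Type) [Finite Y] (K : Language Y), QuasiRational Y K → InCone L K) ∧
    ∃ (Y : Type) (_ : Finite Y) (N : Language Y), N.IsContextFree ∧ ¬ InCone L N :=
  main

end Pool.Agent.Results.MP_2d18ab_lc.NonGenerator
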